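import Mathlib
import Pool.Agent.H57.Code.Lp
import Pool.Agent.H64.Pent.Defs

set_option autoImplicit false

/-!
Words with a side without own edges split (MP_a46c6f_co).
-/

namespace Pool.Agent.H21.WC

open Pool.Agent.H98.Code Pool.Agent.H57.Code Pool.Agent.H64.Pent

variable {n : ℕ}

/-- a pair without `z` and without own edges is alternating -/
theorem alt_of (p : Equiv.Perm (ZMod n)) {a b : ZMod n → ZMod 2} (hev : Ev p a b)
    (hz : ∀ i, word p a b i ≠ z) (hY : ∀ i, word p a b i = 0 → a i = 0) : Alt p a b := by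
  intro i
  have h1 := hev i
  have h2 := hz i
  have h3 := hY i
  simp only [word, z, ne_eq, Prod.mk.injEq, Prod.mk_eq_zero] at h2 h3
  generalize a (i - 1) = x1 at *
  generalize a i = x2 at *
  generalize b (p i - 1) = x3 at *
  generalize b (p i) = x4 at *
  revert x1 x2 x3 x4
  decide

/-- **a nonzero `z`-free word with a side without own edges splits** -/
theorem splits_of_alt {p : Equiv.Perm (ZMod n)} (hC : Crit p) {a b : ZMod n → ZMod 2}
    (hev : Ev p a b) (hz : ∀ i, word p a b i ≠ z) (hY : ∀ i, word p a b i = 0 → a i = 0)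
    (h0 : word p a b ≠ 0) : ∃ g, Splits (Lp p) (word p a b) g := by
  have hA := alt_of p hev hz hY
  have hne : ∃ i, a i = 1 := by
    by_contra hcon
    push Not at hcon
    apply h0
    have ha : ∀ i, a i = 0 := fun i => by
      rcases (show ∀ c : ZMod 2, c = 0 ∨ c = 1 by decide) (a i) with h | h
      · exact h
      · exact absurd h (hcon i)
    funext i
    rcases hA i with h | h
    · simp only [word]
      rw [h.1, h.2.1, h.2.2.2]
      rfl
    · have := h.1
      rw [ha, ha] at this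
      exact absurd this (by decide)
  obtain ⟨e, s, t, h1, h2, h3⟩ := hC a b hA hne
  have key : ∀ i, i ≠ e → (s (i - 1) + s i = t (p i - 1) + t (p i)) ∧
      (word p s t i = 0 ∨ word p s t i = word p a b i) := by
    intro i hi
    obtain ⟨v, g1, g2, g3, g4⟩ := h3 i hi
    have hAi := hA i
    simp only [word]
    rw [g1, g2, g3, g4]
    clear g1 g2 g3 g4
    generalize a (i - 1) = x1 at *
    generalize a i = x2 at *
    generalize b (p i - 1) = x3 at *
    generalize b (p i) = x4 at *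
    revert x1 x2 x3 x4 v
    decide
  have hev' : Ev p s t := by
    intro i
    by_cases hi : i = e
    · rw [hi, h2.1, h2.2.1, h2.2.2.1, h2.2.2.2]
      decide
    · exact (key i hi).1
  have hge : word p s t e = z := by
    simp only [word]
    rw [h2.1, h2.2.1, h2.2.2.2]
    decide
  have hwe : word p a b e = 0 := by
    simp only [word]
    rw [h1.1, h1.2.1, h1.2.2.2]
    decide
  have kk : ∀ u : K, u + u = 0 := by decide
  refine ⟨e, word p s t, word_mem p s t hev', word p a b + word p s t,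
    (Lp p).add_mem (word_mem p a b hev) (word_mem p s t hev'), ?_, hge, ?_, ?_⟩
  · funext i
    show word p s t i + (word p a b i + word p s t i) = word p a b i
    rw [add_left_comm, kk, add_zero]
  · show word p a b e + word p s t e = z
    rw [hwe, hge, zero_add]
  · intro i hi
    rcases (key i hi).2 with h | h
    · exact Or.inl h
    · right
      show word p a b i + word p s t i = 0
      rw [h, kk]

/-- the four values at a matching edge: hypotheses on two pairs -/
abbrev Hy (x1 x2 x3 x4 y1 y2 y3 y4 : ZMod 2) : Prop :=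
  x1 + x2 = x3 + x4 ∧ y1 + y2 = y3 + y4 ∧ ¬ (x1 + x2 = 0 ∧ x2 + x4 = 1) ∧
    ((x1 + x2 = 0 ∧ x2 + x4 = 0) ∨ (y1 + y2 = 0 ∧ y2 + y4 = 0) ∨
      (y1 + y2 = x1 + x2 ∧ y2 + y4 = x2 + x4))

theorem hy1 : ∀ x1 x2 x3 x4 y1 y2 y3 y4 : ZMod 2, Hy x1 x2 x3 x4 y1 y2 y3 y4 →
    x1 * y1 + x2 * y2 = x3 * y3 + x4 * y4 := by
  have h2 : ∀ c : ZMod 2, c = 0 ∨ c = 1 := by decide
  intro x1 x2 x3 x4 y1 y2
  rcases h2 x1 with rfl | rfl <;> rcases h2 x2 with rfl | rfl <;> rcases h2 x3 with rfl | rfl <;>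
    rcases h2 x4 with rfl | rfl <;> rcases h2 y1 with rfl | rfl <;> rcases h2 y2 with rfl | rfl <;>
      decide

theorem hy2 : ∀ x1 x2 x3 x4 y1 y2 y3 y4 : ZMod 2, Hy x1 x2 x3 x4 y1 y2 y3 y4 →
    x1 + x2 = 0 ∧ x2 + x4 = 0 → x2 = 1 →
      x1 * y1 + x2 * y2 = y1 + y2 ∧ x2 * y2 + x4 * y4 = y2 + y4 := by
  have h2 : ∀ c : ZMod 2, c = 0 ∨ c = 1 := by decide
  intro x1 x2 x3 x4 y1 y2
  rcases h2 x1 with rfl | rfl <;> rcases h2 x2 with rfl | rfl <;> rcases h2 x3 with rfl | rfl <;>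
    rcases h2 x4 with rfl | rfl <;> rcases h2 y1 with rfl | rfl <;> rcases h2 y2 with rfl | rfl <;>
      decide

theorem hy3 : ∀ x1 x2 x3 x4 y1 y2 y3 y4 : ZMod 2, Hy x1 x2 x3 x4 y1 y2 y3 y4 →
    x1 + x2 = 0 ∧ x2 + x4 = 0 → x2 = 0 →
      x1 * y1 + x2 * y2 = 0 ∧ x2 * y2 + x4 * y4 = 0 := by
  have h2 : ∀ c : ZMod 2, c = 0 ∨ c = 1 := by decide
  intro x1 x2 x3 x4 y1 y2
  rcases h2 x1 with rfl | rfl <;> rcases h2 x2 with rfl | rfl <;> rcases h2 x3 with rfl | rfl <;>
    rcases h2 x4 with rfl | rfl <;> rcases h2 y1 with rfl | rfl <;> rcases h2 y2 with rfl | rfl <;>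
      decide

theorem hy4 : ∀ x1 x2 x3 x4 y1 y2 y3 y4 : ZMod 2, Hy x1 x2 x3 x4 y1 y2 y3 y4 →
    ¬ (x1 + x2 = 0 ∧ x2 + x4 = 0) →
      (x1 * y1 + x2 * y2 = 0 ∧ x2 * y2 + x4 * y4 = 0) ∨
        (x1 * y1 + x2 * y2 = x1 + x2 ∧ x2 * y2 + x4 * y4 = x2 + x4) := by
  have h2 : ∀ c : ZMod 2, c = 0 ∨ c = 1 := by decide
  intro x1 x2 x3 x4 y1 y2
  rcases h2 x1 with rfl | rfl <;> rcases h2 x2 with rfl | rfl <;> rcases h2 x3 with rfl | rfl <;>
    rcases h2 x4 with rfl | rfl <;> rcases h2 y1 with rfl | rfl <;> rcases h2 y2 with rfl | rfl <;>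
      decide

/-- the part of `(s, t)` on the side `(a, b)` -/
theorem part {p : Equiv.Perm (ZMod n)} {a b s t : ZMod n → ZMod 2} (hev : Ev p a b)
    (hev' : Ev p s t) (hle : ∀ i, word p a b i ≠ 0 → word p s t i = 0 ∨ word p s t i = word p a b i)
    (hz : ∀ i, word p a b i ≠ z) :
    Ev p (fun i => a i * s i) (fun i => b i * t i) ∧
    (∀ i, word p a b i = 0 → a i = 1 → word p (fun i => a i * s i) (fun i => b i * t i) i = word p s t i)
    ∧ (∀ i, word p a b i = 0 → a i = 0 → word p (fun i => a i * s i) (fun i => b i * t i) i = 0) ∧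
    ∀ i, word p a b i ≠ 0 → word p (fun i => a i * s i) (fun i => b i * t i) i = 0 ∨
      word p (fun i => a i * s i) (fun i => b i * t i) i = word p a b i := by
  have hH : ∀ i, Hy (a (i - 1)) (a i) (b (p i - 1)) (b (p i)) (s (i - 1)) (s i) (t (p i - 1))
      (t (p i)) := by
    intro i
    refine ⟨hev i, hev' i, ?_, ?_⟩
    · have h4 := hz i
      simpa only [word, z, ne_eq, Prod.mk.injEq] using h4
    · have h3 := hle i
      simp only [word, ne_eq, Prod.mk.injEq, Prod.mk_eq_zero] at h3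
      tauto
  refine ⟨fun i => hy1 _ _ _ _ _ _ _ _ (hH i), ?_, ?_, ?_⟩
  · intro i h1 h2
    have := hy2 _ _ _ _ _ _ _ _ (hH i) (by simpa only [word, Prod.mk_eq_zero] using h1) h2
    exact Prod.ext this.1 this.2
  · intro i h1 h2
    have := hy3 _ _ _ _ _ _ _ _ (hH i) (by simpa only [word, Prod.mk_eq_zero] using h1) h2
    exact Prod.ext this.1 this.2
  · intro i h1
    have := hy4 _ _ _ _ _ _ _ _ (hH i) (by simpa only [word, ne_eq, Prod.mk_eq_zero] using h1)
    rcases this with h | h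
    · exact Or.inl (Prod.ext h.1 h.2)
    · exact Or.inr (Prod.ext h.1 h.2)

end Pool.Agent.H21.WC
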